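import Pool.Agent.Helper7.BH2.Lower
import Pool.Agent.Helper7.BH2.Upper

/-!
The conjecture of Bollobás and Harary on the least number of edges of a graph which keeps diameter at most `d`
after the removal of any edge is true for every `d ≥ 5`.
-/

set_option autoImplicit false

namespace Pool.Agent.Results.MP_7feb78_co.EdgeLimit

open Filter

/-- The least number of edges of a graph `G` of order `n` such that `G` and all the graphs `G - e` have diameter
at most `d`. -/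
noncomputable def ghat (n d : ℕ) : ℕ :=
  sInf {m : ℕ | ∃ G : SimpleGraph (Fin n), G.edgeSet.ncard = m ∧ G.ediam ≤ (d : ℕ∞) ∧
    ∀ e ∈ G.edgeSet, (G.deleteEdges {e}).ediam ≤ (d : ℕ∞)}

lemma ghat_mem (n d : ℕ) (hd : 5 ≤ d) (hn : 3 ≤ n) :
    ∃ G : SimpleGraph (Fin n), G.edgeSet.ncard = ghat n d ∧ Pool.Agent.Helper7.BH2.Keeps G d := by
  obtain ⟨G, hG, _⟩ := Pool.Agent.Helper7.BH2.upper_nat n d hd hn
  have := Nat.sInf_mem (s := {m : ℕ | ∃ G : SimpleGraph (Fin n), G.edgeSet.ncard = m ∧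
    G.ediam ≤ (d : ℕ∞) ∧ ∀ e ∈ G.edgeSet, (G.deleteEdges {e}).ediam ≤ (d : ℕ∞)})
    ⟨_, G, rfl, hG.1, hG.2⟩
  exact this

lemma ghat_upper (n d : ℕ) (hd : 5 ≤ d) (hn : 3 ≤ n) :
    (2 * d / 3) * ghat n d ≤ (2 * d / 3 + 1) * n + 2 * (2 * d / 3) := by
  obtain ⟨G, hG, hle⟩ := Pool.Agent.Helper7.BH2.upper_nat n d hd hn
  refine le_trans (Nat.mul_le_mul_left _ ?_) hle
  exact Nat.sInf_le ⟨G, rfl, hG.1, hG.2⟩

lemma ghat_lower (n d D : ℕ) (hd : 5 ≤ d) (hn : 3 ≤ n) (hD : 1 ≤ D) (hnD : D ^ d < n) :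
    D * (2 * d / 3 + 1) * n ≤
      (D * (2 * d / 3) + 2 * (2 * d / 3 + 1)) * ghat n d + d * D ^ (d + 2) := by
  classical
  obtain ⟨G, hG, hK⟩ := ghat_mem n d hd hn
  rw [Pool.Agent.Helper7.BH2.keeps_iff] at hK
  have := Pool.Agent.Helper7.BH2.lower_nat G d D hD (by simpa using hnD) hK
  rw [Fintype.card_fin] at this
  rw [← hG, ← SimpleGraph.coe_edgeFinset, Set.ncard_coe_finset]
  exact this

/-- The conjecture of Bollobás and Harary for the removal of edges. -/
theorem result (d : ℕ) (hd : 5 ≤ d) :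
    Tendsto (fun n : ℕ => (ghat n d : ℝ) / n) atTop
      (nhds ((((2 * d / 3 : ℕ) : ℝ) + 1) / ((2 * d / 3 : ℕ) : ℝ))) := by
  set b := 2 * d / 3 with hbdef
  have hb3 : 3 ≤ b := by omega
  have hb : (0 : ℝ) < (b : ℝ) := by
    have : 0 < b := by omega
    exact_mod_cast this
  rw [tendsto_order]
  constructor
  · intro a ha
    rw [lt_div_iff₀ hb] at ha
    by_cases ha0 : a < 0
    · filter_upwards [eventually_ge_atTop 0] with n _
      exact lt_of_lt_of_le ha0 (by positivity)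
    push Not at ha0
    -- choose `D`
    have hpos : 0 < (b : ℝ) + 1 - a * b := by linarith
    obtain ⟨D, hD⟩ := exists_nat_gt (2 * a * (b + 1) / ((b : ℝ) + 1 - a * b))
    have hD0 : (0 : ℝ) < D := lt_of_le_of_lt (by positivity) hD
    have hD1 : 1 ≤ D := by exact_mod_cast hD0
    rw [div_lt_iff₀ hpos] at hD
    have hgap : 0 < (D : ℝ) * (b + 1) - a * (D * b + 2 * (b + 1)) := by nlinarith
    obtain ⟨n0, hn0⟩ := exists_nat_gt
      (((d * D ^ (d + 2) : ℕ) : ℝ) / ((D : ℝ) * (b + 1) - a * (D * b + 2 * (b + 1))))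
    rw [div_lt_iff₀ hgap] at hn0
    filter_upwards [eventually_ge_atTop (max n0 (max 3 (D ^ d + 1)))] with n hn
    have h1 : n0 ≤ n := le_trans (le_max_left _ _) hn
    have h2 : 3 ≤ n := le_trans (le_trans (le_max_left _ _) (le_max_right _ _)) hn
    have h3 : D ^ d + 1 ≤ n := le_trans (le_trans (le_max_right _ _) (le_max_right _ _)) hn
    have h4 := ghat_lower n d D hd h2 hD1 (by omega)
    rw [← hbdef] at h4
    have h5 : (D : ℝ) * (b + 1) * n ≤
        (D * b + 2 * (b + 1)) * ghat n d + ((d * D ^ (d + 2) : ℕ) : ℝ) := by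
      exact_mod_cast h4
    have hn1 : (n0 : ℝ) ≤ n := by exact_mod_cast h1
    have hn2 : (0 : ℝ) < n := by
      have : 0 < n := by omega
      exact_mod_cast this
    rw [lt_div_iff₀ hn2]
    have h6 : ((d * D ^ (d + 2) : ℕ) : ℝ) <
        n * ((D : ℝ) * (b + 1) - a * (D * b + 2 * (b + 1))) :=
      lt_of_lt_of_le hn0 (mul_le_mul_of_nonneg_right hn1 hgap.le)
    have h7 : (0 : ℝ) < D * b + 2 * (b + 1) := by positivity
    have h8 : (D * b + 2 * (b + 1)) * (a * n) < (D * b + 2 * ((b : ℝ) + 1)) * ghat n d := by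
      nlinarith
    exact lt_of_mul_lt_mul_left h8 h7.le
  · intro a ha
    rw [gt_iff_lt, div_lt_iff₀ hb] at ha
    have hgap : 0 < a * b - (b + 1) := by linarith
    obtain ⟨n0, hn0⟩ := exists_nat_gt (2 * (b : ℝ) / (a * b - (b + 1)))
    rw [div_lt_iff₀ hgap] at hn0
    filter_upwards [eventually_ge_atTop (max n0 3)] with n hn
    have h1 : n0 ≤ n := le_trans (le_max_left _ _) hn
    have h2 : 3 ≤ n := le_trans (le_max_right _ _) hn
    have h4 := ghat_upper n d hd h2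
    rw [← hbdef] at h4
    have h5 : (b : ℝ) * ghat n d ≤ (b + 1) * n + 2 * b := by exact_mod_cast h4
    have hn1 : (n0 : ℝ) ≤ n := by exact_mod_cast h1
    have hn2 : (0 : ℝ) < n := by
      have : 0 < n := by omega
      exact_mod_cast this
    rw [div_lt_iff₀ hn2]
    have h6 : 2 * (b : ℝ) < n * (a * b - (b + 1)) :=
      lt_of_lt_of_le hn0 (mul_le_mul_of_nonneg_right hn1 hgap.le)
    have h8 : (b : ℝ) * ghat n d < b * (a * n) := by nlinarith
    exact lt_of_mul_lt_mul_left h8 hb.le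

end Pool.Agent.Results.MP_7feb78_co.EdgeLimit
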