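import Pool.Agent.Helper61.BHGraph

/-!
The conjecture of Bollobás and Harary on the least number of edges of a graph which keeps diameter at most `d`
after the removal of any vertex fails for every `d ≥ 177`.
-/

set_option autoImplicit false

namespace Pool.Agent.Results.MP_7feb78_co.LargeDiameter

open Filter

/-- The least number of edges of a graph of order `n` such that for every vertex `v` the graph `G - v` has
diameter at most `d`. -/
noncomputable def fhat (n d : ℕ) : ℕ :=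
  sInf {m : ℕ | ∃ G : SimpleGraph (Fin n), G.edgeSet.ncard = m ∧
    ∀ v : Fin n, (G.induce ({v}ᶜ : Set (Fin n))).ediam ≤ (d : ℕ∞)}

/-- The lower limit, for `n → ∞`, of `fhat n d / n`. -/
noncomputable def low (d : ℕ) : ℝ := liminf (fun n : ℕ => (fhat n d : ℝ) / n) atTop

/-- The ladder graphs. -/
theorem low_le {d k m : ℕ} (hk : 1 ≤ k) (hd : 3 * m + 2 * k + 1 ≤ d) :
    low d ≤ 1 + (k + 2) / (2 * k * (m + 1)) := by
  have hk' : (1 : ℝ) ≤ k := by exact_mod_cast hk
  have hm' : (0 : ℝ) ≤ m := Nat.cast_nonneg m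
  -- monotonicity in the diameter
  have hmono : ∀ N : ℕ, fhat (2 + N * (k * (2 * m + 2))) d ≤
      1 + (N * (k * (2 * m + 1)) + N * ((k + 1) * 2)) := by
    intro N
    obtain ⟨G', h1, h2⟩ := Pool.Agent.Helper61.BH.transport (Pool.Agent.Helper61.BH.ladder N k (2 * m))
      (2 + N * (k * (2 * m + 2))) d (by simp [Pool.Agent.Helper61.BH.Vert])
      (fun v x y hx hy => (Pool.Agent.Helper61.BH.ladder_conn rfl v x y hx hy).mono hd)
    refine le_trans (Nat.sInf_le ⟨G', rfl, h2⟩) ?_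
    rw [h1]
    exact Pool.Agent.Helper61.BH.ncard_edgeSet_le N k (2 * m)
  have hbd : IsBoundedUnder (· ≥ ·) atTop (fun n : ℕ => (fhat n d : ℝ) / n) :=
    isBoundedUnder_of ⟨0, fun n => by positivity⟩
  apply liminf_le_of_frequently_le _ hbd
  rw [frequently_atTop]
  intro n0
  refine ⟨2 + n0 * (k * (2 * m + 2)), ?_, ?_⟩
  · have h1 : 1 ≤ k * (2 * m + 2) := Nat.mul_pos hk (by omega)
    nlinarith
  · have h1 : ((fhat (2 + n0 * (k * (2 * m + 2))) d : ℕ) : ℝ) ≤
        ((1 + (n0 * (k * (2 * m + 1)) + n0 * ((k + 1) * 2)) : ℕ) : ℝ) := by exact_mod_cast hmono n0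
    have hn : (0 : ℝ) ≤ n0 := Nat.cast_nonneg n0
    have hpos : (0 : ℝ) < ((2 + n0 * (k * (2 * m + 2)) : ℕ) : ℝ) := by positivity
    rw [div_le_iff₀ hpos]
    refine h1.trans ?_
    push_cast
    have hden : (0 : ℝ) < 2 * k * (m + 1) := by positivity
    have h2 : (1 + ((k : ℝ) + 2) / (2 * k * (m + 1))) * (2 + n0 * (k * (2 * m + 2))) =
        1 + (n0 * (k * (2 * m + 1)) + n0 * ((k + 1) * 2)) + (1 + 2 * ((k : ℝ) + 2) / (2 * k * (m + 1))) := by
      field_simp
      ring
    rw [h2]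
    have h3 : (0 : ℝ) ≤ 1 + 2 * ((k : ℝ) + 2) / (2 * k * (m + 1)) := by positivity
    linarith

/-- The conjecture fails for every `d ≥ 177`, and the constant `2` in the conjectured value
`1 + 1 / ⌊d / 2⌋ = 1 + (2 + o(1)) / d` can be replaced by `3 / 2`. -/
theorem result :
    (∀ d : ℕ, 177 ≤ d → low d < (((d / 2 : ℕ) : ℝ) + 1) / ((d / 2 : ℕ) : ℝ)) ∧
    (∀ ε : ℝ, 0 < ε → ∃ D : ℕ, ∀ d : ℕ, D ≤ d → low d ≤ 1 + (3 / 2 + ε) / d) := by
  constructor
  · intro d hd
    -- it is enough to find `k`, `m`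
    have key : ∃ k m : ℕ, 1 ≤ k ∧ 3 * m + 2 * k + 1 ≤ d ∧ (k + 2) * (d / 2) < 2 * k * (m + 1) := by
      rcases Nat.lt_or_ge d 193 with h | h
      · interval_cases d
        · exact ⟨10, 52, by norm_num, by norm_num, by norm_num⟩
        · exact ⟨12, 51, by norm_num, by norm_num, by norm_num⟩
        · exact ⟨12, 51, by norm_num, by norm_num, by norm_num⟩
        · exact ⟨13, 51, by norm_num, by norm_num, by norm_num⟩
        · exact ⟨12, 52, by norm_num, by norm_num, by norm_num⟩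
        · exact ⟨11, 53, by norm_num, by norm_num, by norm_num⟩
        · exact ⟨11, 53, by norm_num, by norm_num, by norm_num⟩
        · exact ⟨12, 53, by norm_num, by norm_num, by norm_num⟩
        · exact ⟨12, 53, by norm_num, by norm_num, by norm_num⟩
        · exact ⟨11, 54, by norm_num, by norm_num, by norm_num⟩
        · exact ⟨12, 54, by norm_num, by norm_num, by norm_num⟩
        · exact ⟨12, 54, by norm_num, by norm_num, by norm_num⟩
        · exact ⟨12, 54, by norm_num, by norm_num, by norm_num⟩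
        · exact ⟨12, 55, by norm_num, by norm_num, by norm_num⟩
        · exact ⟨12, 55, by norm_num, by norm_num, by norm_num⟩
        · exact ⟨11, 56, by norm_num, by norm_num, by norm_num⟩
      · exact ⟨12, (d - 25) / 3, by norm_num, by omega, by omega⟩
    obtain ⟨k, m, hk, h1, h2⟩ := key
    refine lt_of_le_of_lt (low_le hk h1) ?_
    have ha : 1 ≤ d / 2 := by omega
    have ha' : (0 : ℝ) < ((d / 2 : ℕ) : ℝ) := by exact_mod_cast ha
    have hk' : (0 : ℝ) < k := by exact_mod_cast hk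
    have h3 : ((k : ℝ) + 2) * ((d / 2 : ℕ) : ℝ) < 2 * k * (m + 1) := by exact_mod_cast h2
    rw [add_div (((d / 2 : ℕ) : ℝ)) 1, div_self ha'.ne']
    have h4 : ((k : ℝ) + 2) / (2 * k * (m + 1)) < 1 / ((d / 2 : ℕ) : ℝ) := by
      rw [div_lt_div_iff₀ (by positivity) ha']
      linarith
    linarith
  · intro ε hε
    -- choose `k` with `3 / k ≤ ε / 2`
    obtain ⟨k, hk⟩ := exists_nat_gt (6 / ε)
    have hk0 : (0 : ℝ) < k := lt_trans (by positivity) hk
    have hk1 : 1 ≤ k := by exact_mod_cast hk0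
    obtain ⟨D, hD⟩ := exists_nat_gt ((3 / 2 + ε) * (2 * k + 1) / (ε / 2))
    refine ⟨max D (2 * k + 4), fun d hd => ?_⟩
    have hd1 : D ≤ d := le_trans (le_max_left _ _) hd
    have hd2 : 2 * k + 4 ≤ d := le_trans (le_max_right _ _) hd
    refine (low_le (m := (d - 1 - 2 * k) / 3) hk1 (by omega)).trans ?_
    have hm : d ≤ 3 * ((d - 1 - 2 * k) / 3 + 1) + 2 * k := by omega
    have hm' : (d : ℝ) ≤ 3 * (((d - 1 - 2 * k) / 3 : ℕ) + 1) + 2 * k := by exact_mod_cast hm
    have hd0 : (0 : ℝ) < d := by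
      have : 0 < d := by omega
      exact_mod_cast this
    set m : ℝ := (((d - 1 - 2 * k) / 3 : ℕ) : ℝ) with hmdef
    have hm0 : 0 ≤ m := Nat.cast_nonneg _
    have hDd : (3 / 2 + ε) * (2 * k + 1) / (ε / 2) < d := lt_of_lt_of_le hD (by exact_mod_cast hd1)
    rw [div_lt_iff₀ (by positivity)] at hDd
    have hkε : 6 < k * ε := by
      rw [div_lt_iff₀ hε] at hk
      exact hk
    have h5 : ((k : ℝ) + 2) / (2 * k * (m + 1)) ≤ (3 / 2 + ε) / d := by
      rw [div_le_div_iff₀ (by positivity) hd0]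
      nlinarith
    linarith

end Pool.Agent.Results.MP_7feb78_co.LargeDiameter
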